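import Pool.Agent.Y872.L.Asm
import Pool.Agent.Y290.LT.Sup
import Pool.Agent.Y642.LT.E3

/-!
MP_b311ff_nt, Q1 (E. Lehmer): for every pair `0 < a < b` that is not exceptional the threshold
`Ω(a,b)` is finite.
-/

set_option autoImplicit false

namespace Pool.Agent.Results.MP_b311ff_nt.LehmerTriples

/-- `r` is a quadratic residue of `p`: `p` does not divide `r`, and `r ≡ x ^ 2 (mod p)` for some
integer `x`. -/
def IsQR (p r : ℕ) : Prop := ¬ p ∣ r ∧ ∃ x : ℕ, r ≡ x ^ 2 [MOD p]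

/-- The exceptional pairs of the problem: conditions on the unordered pair of residues
`{a mod m, b mod m}` for `m = 3, 5, 7`. -/
def Exceptional (a b : ℕ) : Prop :=
  ({a % 3, b % 3} : Finset ℕ) = {1, 2} ∨
  (({a % 5, b % 5} : Finset ℕ) = {1, 3} ∨ ({a % 5, b % 5} : Finset ℕ) = {2, 3} ∨
    ({a % 5, b % 5} : Finset ℕ) = {2, 4}) ∨
  (({a % 7, b % 7} : Finset ℕ) = {1, 5} ∨ ({a % 7, b % 7} : Finset ℕ) = {2, 3} ∨
    ({a % 7, b % 7} : Finset ℕ) = {4, 6})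

theorem not_exc {a b : ℕ} (h : ¬ Exceptional a b) : ¬ Pool.Agent.Y872.L.Exc a b := by
  intro hx
  apply h
  unfold Pool.Agent.Y872.L.Exc at hx
  unfold Exceptional
  rcases hx with hx | hx | hx
  · left
    simp only [Finset.mem_insert, Finset.mem_singleton, Prod.mk.injEq] at hx
    rcases hx with ⟨h1, h2⟩ | ⟨h1, h2⟩ <;> rw [h1, h2] <;> decide
  · right; left
    simp only [Finset.mem_insert, Finset.mem_singleton, Prod.mk.injEq] at hx
    rcases hx with ⟨h1, h2⟩ | ⟨h1, h2⟩ | ⟨h1, h2⟩ | ⟨h1, h2⟩ | ⟨h1, h2⟩ | ⟨h1, h2⟩ <;>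
      rw [h1, h2] <;> decide
  · right; right
    simp only [Finset.mem_insert, Finset.mem_singleton, Prod.mk.injEq] at hx
    rcases hx with ⟨h1, h2⟩ | ⟨h1, h2⟩ | ⟨h1, h2⟩ | ⟨h1, h2⟩ | ⟨h1, h2⟩ | ⟨h1, h2⟩ <;>
      rw [h1, h2] <;> decide

theorem qr_of {p r : ℕ} (h : Pool.Agent.Y872.L.QRes p r) : IsQR p r :=
  ⟨h.1, h.2.elim fun x hx => ⟨x, hx.symm⟩⟩

/-- Let `0 < a < b`, not exceptional. Then there are `N` and `p₀` such that for every prime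
`p > p₀` some `r` with `1 ≤ r ≤ N` makes `r`, `r + a`, `r + b` all quadratic residues of `p`. -/
theorem result (a b : ℕ) (ha : 0 < a) (hab : a < b) (h : ¬ Exceptional a b) :
    ∃ N p₀ : ℕ, ∀ p : ℕ, p.Prime → p₀ < p →
      ∃ r : ℕ, 1 ≤ r ∧ r ≤ N ∧ IsQR p r ∧ IsQR p (r + a) ∧ IsQR p (r + b) := by
  obtain ⟨N, p₀, hN⟩ := Pool.Agent.Y872.L.threshold Pool.Agent.Y290.LT.Sup.sup
    Pool.Agent.Y642.LT.ee_of_uu a b ha hab (not_exc h)
  refine ⟨N, p₀, fun p hp hpp => ?_⟩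
  obtain ⟨r, h1, h2, h3, h4, h5⟩ := hN p hp hpp
  exact ⟨r, h1, h2, qr_of h3, qr_of h4, qr_of h5⟩

end Pool.Agent.Results.MP_b311ff_nt.LehmerTriples
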